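import Mathlib
import Pool.Agent.Work.MP_c7ad22_co.Ramsey

/-!
# Finite circular-order descriptions of `k`-colourable graphs

We show that, among the positive integers `k`, the class of `k`-colourable graphs is described by a
finite set of forbidden circularly ordered graphs exactly for `k = 1`.
-/

open Finset

namespace Pool.Agent.Results.MP_c7ad22_co.FiniteCircular

/-- A circularly ordered graph on `n` vertices: a simple graph on `Fin n` together with a bijection
`order` of its vertex set with `Fin n`, the latter carrying its usual circular order (that of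
`ℤ/n`). -/
structure CircGraph where
  /-- number of vertices -/
  n : ℕ
  /-- the graph -/
  graph : SimpleGraph (Fin n)
  /-- the circular ordering -/
  order : Fin n ≃ Fin n

/-- `H` occurs in the graph `G` with circular ordering `c`: there is an injective map `φ` of the
vertices of `H` to those of `G` preserving and reflecting adjacency and the circular order of every
triple. -/
def Occurs (H : CircGraph) {V : Type} [Fintype V] (G : SimpleGraph V)
    (c : V ≃ Fin (Fintype.card V)) : Prop :=
  ∃ φ : Fin H.n → V, Function.Injective φ ∧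
    (∀ u v, H.graph.Adj u v ↔ G.Adj (φ u) (φ v)) ∧
    (∀ u v w, sbtw (H.order u) (H.order v) (H.order w) ↔
      sbtw (c (φ u)) (c (φ v)) (c (φ w)))

/-- `G` is `F`-free circularly orderable: some circular ordering of its vertex set has no member of
`F` occurring. -/
def FreeCircOrderable (F : Set CircGraph) {V : Type} [Fintype V] (G : SimpleGraph V) : Prop :=
  ∃ c : V ≃ Fin (Fintype.card V), ∀ H ∈ F, ¬ Occurs H G c

/-- The circular clique on `p = k * q + 1` vertices. -/
def circClique (k q : ℕ) (hq : 0 < q) : SimpleGraph (Fin (k * q + 1)) where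
  Adj u v := (u.val + q ≤ v.val ∧ v.val + q ≤ u.val + (k * q + 1)) ∨
    (v.val + q ≤ u.val ∧ u.val + q ≤ v.val + (k * q + 1))
  symm := ⟨fun u v h => h.symm⟩
  loopless := ⟨fun u h => by omega⟩

theorem circClique_not_colorable (k q : ℕ) (hq : 0 < q) (hk : 2 ≤ k) :
    ¬ (circClique k q hq).Colorable k := by
  rintro ⟨C⟩
  obtain ⟨i, hi⟩ := Fintype.exists_lt_card_fiber_of_mul_lt_card (f := fun v => C v) (n := q)
    (by simp)
  set S := (univ : Finset (Fin (k * q + 1))).filter (fun x => C x = i) with hS
  have hindep : ∀ x ∈ S, ∀ y ∈ S, ¬ (circClique k q hq).Adj x y := by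
    intro x hx y hy hadj
    have h1 : C x = i := by simpa [hS] using hx
    have h2 : C y = i := by simpa [hS] using hy
    exact C.valid hadj (h1.trans h2.symm)
  have hne : S.Nonempty := by
    rw [← Finset.card_pos]; omega
  have h2q : 2 * q ≤ k * q := Nat.mul_le_mul_right _ hk
  obtain ⟨a, haS, hamin⟩ := Finset.exists_min_image S (fun x => x.val) hne
  have hcard : S.card ≤ (Finset.Ico a.val (a.val + q)).card := by
    apply Finset.card_le_card_of_injOn
      (fun x => if x.val < a.val + q then x.val else x.val - (k * q + 1 - q))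
    · intro x hx
      have hx' : x ∈ S := hx
      have h1 := hamin x hx'
      have h2 := hindep a haS x hx'
      have h3 := x.2
      simp only [circClique] at h2
      simp only [coe_Ico, Set.mem_Ico]
      split_ifs with hlt
      · omega
      · omega
    · intro x hx y hy hxy
      have hx' : x ∈ S := hx
      have hy' : y ∈ S := hy
      have h1 := hamin x hx'
      have h2 := hindep a haS x hx'
      have h3 := x.2
      have h1' := hamin y hy'
      have h2' := hindep a haS y hy'
      have h3' := y.2
      have h4 := hindep x hx' y hy'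
      simp only [circClique] at h2 h2' h4
      apply Fin.ext
      simp only at hxy
      split_ifs at hxy with c1 c2 c2
      · exact hxy
      · omega
      · omega
      · omega
  rw [Nat.card_Ico] at hcard
  omega

/-- Rotation of `Fin p` moving `w` to the last position. -/
def rot {p : ℕ} (w : Fin p) (x : Fin p) : Fin p :=
  ⟨if w.val < x.val then x.val - w.val - 1 else x.val + p - w.val - 1, by
    have := x.2; have := w.2; split_ifs <;> omega⟩

theorem rot_val {p : ℕ} (w x : Fin p) :
    (rot w x).val = if w.val < x.val then x.val - w.val - 1 else x.val + p - w.val - 1 := rfl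

theorem rot_sbtw {p : ℕ} (w x y z : Fin p) :
    sbtw (rot w x) (rot w y) (rot w z) ↔ sbtw x y z := by
  have := x.2
  have := y.2
  have := z.2
  have := w.2
  rw [Fin.sbtw_iff, Fin.sbtw_iff]
  simp only [Fin.lt_def, rot_val]
  split_ifs <;> omega

theorem rot_adj (k q : ℕ) (hq : 0 < q) (w x y : Fin (k * q + 1)) :
    (circClique k q hq).Adj (rot w x) (rot w y) ↔ (circClique k q hq).Adj x y := by
  have := x.2
  have := y.2
  have := w.2
  simp only [circClique, rot_val]
  split_ifs <;> omega

theorem rot_inj {p : ℕ} (w : Fin p) : Function.Injective (rot w) := by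
  intro x y h
  have h1 : (rot w x).val = (rot w y).val := congrArg _ h
  rw [rot_val, rot_val] at h1
  have := x.2
  have := y.2
  have := w.2
  apply Fin.ext
  split_ifs at h1 <;> omega

theorem rot_lt {k q : ℕ} (w x : Fin (k * q + 1)) (h : x ≠ w) : (rot w x).val < k * q := by
  have h1 : x.val ≠ w.val := fun hh => h (Fin.ext hh)
  have := x.2
  have := w.2
  rw [rot_val]
  split_ifs <;> omega

/-- Strictly monotone maps preserve and reflect the circular order. -/
theorem sbtw_of_mono {m n : ℕ} {x y z : Fin m} {x' y' z' : Fin n}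
    (hxy : x < y ↔ x' < y') (hyz : y < z ↔ y' < z') (hzx : z < x ↔ z' < x') :
    sbtw x y z ↔ sbtw x' y' z' := by
  rw [Fin.sbtw_iff, Fin.sbtw_iff, hxy, hyz, hzx]

theorem no_description (k : ℕ) (hk : 2 ≤ k) (F : Set CircGraph) (hF : F.Finite)
    (hdesc : ∀ (V : Type) [Fintype V] (G : SimpleGraph V),
      G.Colorable k ↔ FreeCircOrderable F G) : False := by
  classical
  obtain ⟨b, hb⟩ := (hF.image CircGraph.n).bddAbove
  have hbn : ∀ H ∈ F, H.n ≤ b := fun H hH => hb (Set.mem_image_of_mem _ hH)
  obtain ⟨q, hqdef⟩ : ∃ q, q = b + 1 := ⟨_, rfl⟩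
  have hq : 0 < q := by omega
  have hkq : q ≤ k * q := Nat.le_mul_of_pos_left _ (by omega)
  -- the pattern on `Fin k × Fin q`
  have hidx : ∀ u : Fin k × Fin q, u.1.val * q + u.2.val < k * q + 1 := by
    intro u
    have h1 : u.1.val * q + q ≤ k * q := by
      calc u.1.val * q + q = (u.1.val + 1) * q := by ring
        _ ≤ k * q := Nat.mul_le_mul_right _ u.1.2
    have := u.2.2
    omega
  let ι : Fin k × Fin q → Fin (k * q + 1) := fun u => ⟨u.1.val * q + u.2.val, hidx u⟩
  let H' : SimpleGraph (Fin k × Fin q) := (circClique k q hq).comap ι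
  have hH' : ∀ u v, H'.Adj u v → u.1 ≠ v.1 := by
    intro u v hadj heq
    have h1 : (circClique k q hq).Adj (ι u) (ι v) := hadj
    simp only [circClique, ι] at h1
    rw [heq] at h1
    have := u.2.2
    have := v.2.2
    omega
  obtain ⟨N, G, hGk, hGc⟩ := Pool.Agent.Work.MP_c7ad22_co.ramsey k q (by omega) hq H' hH'
  have hGcol : G.Colorable k := ⟨SimpleGraph.Coloring.mk (fun v => v.1) (fun {u v} h => hGk u v h)⟩
  obtain ⟨c, hc⟩ := (hdesc _ G).1 hGcol
  obtain ⟨φ, hφmono, hφadj⟩ := hGc c
  -- the circular clique in its natural circular order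
  have hnot : ¬ FreeCircOrderable F (circClique k q hq) := fun h =>
    circClique_not_colorable k q hq hk ((hdesc _ _).2 h)
  unfold FreeCircOrderable at hnot
  push Not at hnot
  obtain ⟨H, hHF, ψ, hψinj, hψadj, hψord⟩ := hnot (finCongr (Fintype.card_fin (k * q + 1)).symm)
  -- `ψ` misses a vertex
  have hsmall : H.n < k * q + 1 := by
    have := hbn H hHF
    omega
  obtain ⟨w, hw⟩ : ∃ w, ∀ x, ψ x ≠ w := by
    by_contra hcon
    push Not at hcon
    have h1 := Fintype.card_le_of_surjective ψ hcon
    simp at h1
    omega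
  -- inverse of `ι` on small elements
  let κ : Fin (k * q + 1) → Fin k × Fin q := fun x =>
    (⟨(x.val / q) % k, Nat.mod_lt _ (by omega)⟩, ⟨x.val % q, Nat.mod_lt _ hq⟩)
  have hκ : ∀ x : Fin (k * q + 1), x.val < k * q → ι (κ x) = x := by
    intro x hx
    apply Fin.ext
    simp only [ι, κ]
    have h1 : x.val / q < k := (Nat.div_lt_iff_lt_mul hq).2 hx
    rw [Nat.mod_eq_of_lt h1]
    exact Nat.div_add_mod' _ _
  have hκmono : ∀ x y : Fin (k * q + 1), x.val < k * q → y.val < k * q → x < y →
      c (φ (κ x)) < c (φ (κ y)) := by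
    intro x y hx hy hxy
    apply hφmono
    have hx1 : x.val / q < k := (Nat.div_lt_iff_lt_mul hq).2 hx
    have hy1 : y.val / q < k := (Nat.div_lt_iff_lt_mul hq).2 hy
    have hxy' : x.val < y.val := hxy
    have hd : x.val / q ≤ y.val / q := Nat.div_le_div_right hxy'.le
    simp only [κ, Fin.lt_def, Fin.mk.injEq]
    rw [Nat.mod_eq_of_lt hx1, Nat.mod_eq_of_lt hy1]
    rcases Nat.lt_or_eq_of_le hd with h1 | h1
    · exact Or.inl h1
    · refine Or.inr ⟨h1, ?_⟩
      have e1 := Nat.div_add_mod' x.val q
      have e2 := Nat.div_add_mod' y.val q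
      rw [h1] at e1
      omega
  have hκiff : ∀ x y : Fin (k * q + 1), x.val < k * q → y.val < k * q →
      (x < y ↔ c (φ (κ x)) < c (φ (κ y))) := by
    intro x y hx hy
    constructor
    · exact hκmono x y hx hy
    · intro h
      by_contra hcon
      rcases lt_or_eq_of_le (not_lt.1 hcon) with h1 | h1
      · exact absurd (hκmono y x hy hx h1) (not_lt.2 h.le)
      · rw [h1] at h
        exact lt_irrefl _ h
  have hlt : ∀ x, (rot w (ψ x)).val < k * q := fun x => rot_lt w (ψ x) (hw x)
  apply hc H hHF
  refine ⟨fun x => φ (κ (rot w (ψ x))), ?_, ?_, ?_⟩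
  · intro x y hxy
    have hxy' : φ (κ (rot w (ψ x))) = φ (κ (rot w (ψ y))) := hxy
    have h1 : ¬ (rot w (ψ x) < rot w (ψ y)) := by
      rw [hκiff _ _ (hlt x) (hlt y), hxy']
      exact lt_irrefl _
    have h2 : ¬ (rot w (ψ y) < rot w (ψ x)) := by
      rw [hκiff _ _ (hlt y) (hlt x), hxy']
      exact lt_irrefl _
    have h3 : rot w (ψ x) = rot w (ψ y) := le_antisymm (not_lt.1 h2) (not_lt.1 h1)
    exact hψinj (rot_inj w h3)
  · intro u v
    rw [hψadj, ← rot_adj k q hq w, ← hφadj]
    show _ ↔ (circClique k q hq).Adj (ι (κ (rot w (ψ u)))) (ι (κ (rot w (ψ v))))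
    rw [hκ _ (hlt u), hκ _ (hlt v)]
  · intro u v z
    rw [hψord]
    have h0 : sbtw (finCongr (Fintype.card_fin (k * q + 1)).symm (ψ u))
        (finCongr (Fintype.card_fin (k * q + 1)).symm (ψ v))
        (finCongr (Fintype.card_fin (k * q + 1)).symm (ψ z)) ↔ sbtw (ψ u) (ψ v) (ψ z) :=
      sbtw_of_mono Iff.rfl Iff.rfl Iff.rfl
    rw [h0, ← rot_sbtw w]
    exact sbtw_of_mono (hκiff _ _ (hlt u) (hlt v)) (hκiff _ _ (hlt v) (hlt z))
      (hκiff _ _ (hlt z) (hlt u))

/-- The class of `1`-colourable graphs is described by the single edge. -/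
theorem description_one : ∃ F : Set CircGraph, F.Finite ∧
    ∀ (V : Type) [Fintype V] (G : SimpleGraph V),
      G.Colorable 1 ↔ FreeCircOrderable F G := by
  refine ⟨{⟨2, ⊤, Equiv.refl _⟩}, Set.finite_singleton _, ?_⟩
  intro V _ G
  constructor
  · rintro ⟨C⟩
    refine ⟨Fintype.equivFin V, ?_⟩
    rintro H hH ⟨φ, -, hadj, -⟩
    rw [Set.mem_singleton_iff] at hH
    subst hH
    have h1 : G.Adj (φ 0) (φ 1) := by
      rw [← hadj]
      simp
    exact C.valid h1 (Subsingleton.elim _ _)
  · rintro ⟨c, hc⟩
    refine ⟨SimpleGraph.Coloring.mk (fun _ => 0) ?_⟩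
    intro u v huv
    exfalso
    apply hc _ (Set.mem_singleton _)
    refine ⟨fun i => if i = 0 then u else v, ?_, ?_, ?_⟩
    · intro i j hij
      have hne := G.ne_of_adj huv
      fin_cases i <;> fin_cases j <;> simp_all
    · intro i j
      fin_cases i <;> fin_cases j <;> simp [huv, huv.symm]
    · intro i j l
      have h1 : ∀ i j l : Fin 2, ¬ sbtw i j l := by
        intro i j l
        rw [Fin.sbtw_iff]
        omega
      constructor
      · intro h
        exact absurd h (h1 _ _ _)
      · intro h
        exfalso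
        rw [Fin.sbtw_iff] at h
        fin_cases i <;> fin_cases j <;> fin_cases l <;> simp at h <;> omega

/-- **Main theorem.** For a positive integer `k`, the class of `k`-colourable graphs is described by
some finite set of circularly ordered graphs if and only if `k = 1`. -/
theorem result (k : ℕ) (hk : 1 ≤ k) :
    (∃ F : Set CircGraph, F.Finite ∧ ∀ (V : Type) [Fintype V] (G : SimpleGraph V),
      G.Colorable k ↔ FreeCircOrderable F G) ↔ k = 1 := by
  constructor
  · rintro ⟨F, hF, hdesc⟩
    by_contra hne
    exact no_description k (by omega) F hF hdesc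
  · rintro rfl
    exact description_one

end Pool.Agent.Results.MP_c7ad22_co.FiniteCircular
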